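import Pool.Agent.X116.FdC

/-!
# MP_d057eb_an: the ratio `δ_n(K^{1/n}) / C(K^{1/n})` tends to one for every compact set `K`

Definitions (in `Pool.Agent.X116.Fd`):

* `FiniteEnergy μ` : `(z, w) ↦ log |z - w|` is finite (`z ≠ w`) almost everywhere and integrable
  for `μ × μ`; `energy μ = ∬ log |z - w| dμ dμ`;
* `cap E = sup exp (energy μ)` over Borel probability measures `μ` with `μ(Eᶜ) = 0` of finite
  energy (`0` if there are none), the logarithmic capacity of the compact set `E`;
* `diam n E = sup ∏_{j<k} |w_j - w_k|^{2/(n(n-1))}` over `w_1, …, w_n ∈ E`, the `n`-th diameter;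
* `Metric.cthickening ε K` is the closed `ε`-neighbourhood `{z | dist(z, K) ≤ ε}`.
-/

set_option autoImplicit false

namespace Pool.Agent.Results.MP_d057eb_an.DiameterCapacityRatio

open Filter Topology

/-- For every non-empty compact set `K` in the plane,
`δ_n(K^{1/n}) / C(K^{1/n}) → 1` as `n → ∞`. -/
theorem result (K : Set ℂ) (hK : IsCompact K) (hKn : K.Nonempty) :
    Tendsto (fun n : ℕ => Pool.Agent.X116.Fd.diam n (Metric.cthickening (1 / n) K) /
      Pool.Agent.X116.Fd.cap (Metric.cthickening (1 / n) K)) atTop (𝓝 1) :=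
  Pool.Agent.X116.Fd.main K hK hKn

end Pool.Agent.Results.MP_d057eb_an.DiameterCapacityRatio
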